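import Pool.Agent.H61.SymE

set_option autoImplicit false

namespace Pool.Agent.Results.MP_236c69_co.SymIso

open Pointwise Pool.Agent.H61.Sym

/-- the plane -/
abbrev E := Fin 2 → ℝ

/-- the centrally symmetric quadrilateral with vertices `a, b, -a, -b` -/
def quad (a b : E) : Set E := convexHull ℝ {a, b, -a, -b}

/-- the four facets of `quad a b`, each given by its pair of endpoints -/
def ends (a b : E) : Set (E × E) := {(a, b), (b, -a), (-a, -b), (-b, a)}

/-- the facet with the given endpoints -/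
def facet (F : E × E) : Set E := segment ℝ F.1 F.2

/-- `x` lies in the cone over the relative interior of the facet -/
def InCone (F : E × E) (x : E) : Prop := ∃ t : ℝ, 0 < t ∧ ∃ y ∈ openSegment ℝ F.1 F.2, x = t • y

variable {V : Type}

def WellPositioned (a b : E) (G : SimpleGraph V) (p : V → E) : Prop :=
  ∀ v w, G.Adj v w → ∃ F ∈ ends a b, InCone F (p v - p w)

/-- `u` is an infinitesimal flex: the functional equal to `1` on the facet of an edge `vw`
vanishes on `u v - u w` -/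
def Flex (a b : E) (G : SimpleGraph V) (p u : V → E) : Prop :=
  ∀ v w, G.Adj v w → ∀ F ∈ ends a b, InCone F (p v - p w) →
    ∀ φ : E →ₗ[ℝ] ℝ, (∀ y ∈ facet F, φ y = 1) → φ (u v - u w) = 0

def InfRigid (a b : E) (G : SimpleGraph V) (p : V → E) : Prop :=
  ∀ u, Flex a b G p u → ∃ c, ∀ v, u v = c

def Isostatic (a b : E) (G : SimpleGraph V) (p : V → E) : Prop :=
  InfRigid a b G p ∧ ∀ e ∈ G.edgeSet, ¬ InfRigid a b (G.deleteEdges {e}) p

/-- `(2,2)`-tight -/
def Tight (G : SimpleGraph V) : Prop :=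
  (G.edgeSet.ncard : ℤ) = 2 * Nat.card V - 2 ∧
    ∀ H : G.Subgraph, H.verts.Nonempty → (H.edgeSet.ncard : ℤ) ≤ 2 * H.verts.ncard - 2

def PreservesFacets (a b : E) (τ : E →ₗ[ℝ] E) : Prop :=
  ∀ F ∈ ends a b, τ '' facet F = facet F ∨ τ '' facet F = -facet F

lemma cone_iff (c d x : E) : InCone (c, d) x ↔ ∃ l m : ℝ, 0 < l ∧ 0 < m ∧ x = l • c + m • d := by
  constructor
  · rintro ⟨t, ht, _, ⟨l, m, hl, hm, -, rfl⟩, rfl⟩
    exact ⟨t * l, t * m, by positivity, by positivity, by simp [smul_smul]⟩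
  · rintro ⟨l, m, hl, hm, rfl⟩
    refine ⟨l + m, by positivity, _, ⟨l / (l + m), m / (l + m), by positivity, by positivity,
      by field_simp, rfl⟩, ?_⟩
    rw [smul_add, smul_smul, smul_smul, mul_div_cancel₀ _ (by positivity),
      mul_div_cancel₀ _ (by positivity)]

lemma one_iff (c d : E) (φ : E →ₗ[ℝ] ℝ) : (∀ y ∈ facet (c, d), φ y = 1) ↔ φ c = 1 ∧ φ d = 1 := by
  refine ⟨fun h => ⟨h c (left_mem_segment _ _ _), h d (right_mem_segment _ _ _)⟩, ?_⟩
  rintro ⟨h1, h2⟩ _ ⟨l, m, -, -, h, rfl⟩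
  simp [h1, h2, h]

section
variable {a b : E} {α β : E →ₗ[ℝ] ℝ} (a1 : α a = 1) (a2 : α b = 0) (b1 : β a = 0) (b2 : β b = 1)
  (hx : ∀ x, x = α x • a + β x • b)

include hx in
lemma cones (x : E) : (0 < α x → 0 < β x → InCone (a, b) x) ∧
    (α x < 0 → 0 < β x → InCone (b, -a) x) ∧ (α x < 0 → β x < 0 → InCone (-a, -b) x) ∧
    (0 < α x → β x < 0 → InCone (-b, a) x) := by
  simp only [cone_iff]
  refine ⟨fun s t => ⟨_, _, s, t, hx x⟩, fun s t => ⟨_, _, t, neg_pos.mpr s, ?_⟩,
    fun s t => ⟨_, _, neg_pos.mpr s, neg_pos.mpr t, ?_⟩, fun s t => ⟨_, _, neg_pos.mpr t, s, ?_⟩⟩ <;>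
  · conv_lhs => rw [hx x]
    module

include a1 a2 b1 b2 hx in
lemma flex_iff (G : SimpleGraph V) (p u : V → E) : Flex a b G p u ↔ ∀ v w, G.Adj v w →
    (0 < α (p v - p w) * β (p v - p w) → α (u v - u w) + β (u v - u w) = 0) ∧
    (α (p v - p w) * β (p v - p w) < 0 → α (u v - u w) - β (u v - u w) = 0) := by
  refine forall₃_congr fun v w _ => ?_
  generalize p v - p w = x
  generalize u v - u w = y
  obtain ⟨c1, c2, c3, c4⟩ := cones hx x
  constructor
  · intro h
    refine ⟨fun t => ?_, fun t => ?_⟩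
    · rcases mul_pos_iff.mp t with ⟨s, t⟩ | ⟨s, t⟩
      · simpa using h _ (Or.inl rfl) (c1 s t) (α + β) ((one_iff _ _ _).mpr (by simp [a1, a2, b1, b2]))
      · have := h _ (Or.inr (Or.inr (Or.inl rfl))) (c3 s t) (-(α + β))
          ((one_iff _ _ _).mpr (by simp [a1, a2, b1, b2]))
        simp only [LinearMap.neg_apply, LinearMap.add_apply] at this
        linarith
    · rcases mul_neg_iff.mp t with ⟨s, t⟩ | ⟨s, t⟩
      · simpa using h _ (Or.inr (Or.inr (Or.inr rfl))) (c4 s t) (α - β)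
          ((one_iff _ _ _).mpr (by simp [a1, a2, b1, b2]))
      · have := h _ (Or.inr (Or.inl rfl)) (c2 s t) (β - α) ((one_iff _ _ _).mpr (by simp [a1, a2, b1, b2]))
        simp only [LinearMap.sub_apply] at this
        linarith
  · rintro ⟨h1, h2⟩ F hF hc φ hφ
    have e : φ y = α y * φ a + β y * φ b := by
      conv_lhs => rw [hx y]
      simp
    rcases hF with rfl | rfl | rfl | rfl <;> obtain ⟨l, m, hl, hm, rfl⟩ := (cone_iff _ _ _).mp hc <;>
      obtain ⟨p1, p2⟩ := (one_iff _ _ _).mp hφ <;>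
      simp only [map_add, map_smul, map_neg, a1, a2, b1, b2, smul_eq_mul] at h1 h2 p1 p2 <;>
      have := mul_pos hl hm
    · rw [e, p1, p2]; linarith [h1 (by linarith)]
    · rw [e, p1, show φ a = -1 by linarith]; linarith [h2 (by linarith)]
    · rw [e, show φ a = -1 by linarith, show φ b = -1 by linarith]; linarith [h1 (by linarith)]
    · rw [e, p2, show φ b = -1 by linarith]; linarith [h2 (by linarith)]

include a1 a2 b1 b2 hx in
lemma iso {G T1 T2 : SimpleGraph V} (p : V → E) (f1 : Forest T1) (f2 : Forest T2) (l1 : T1 ≤ G)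
    (l2 : T2 ≤ G) (c1 : Con T1) (c2 : Con T2) (hc : ∀ u w, G.Adj u w → T1.Adj u w ∨ T2.Adj u w)
    (s1 : ∀ u w, T1.Adj u w → 0 < α (p u - p w) * β (p u - p w))
    (s2 : ∀ u w, T2.Adj u w → α (p u - p w) * β (p u - p w) < 0) [Nonempty V] :
    WellPositioned a b G p ∧ Isostatic a b G p := by
  refine ⟨fun v w t => ?_, fun u hu => ?_, fun e he h => ?_⟩
  · obtain ⟨k1, k2, k3, k4⟩ := cones hx (p v - p w)
    rcases hc v w t with t | t
    · rcases mul_pos_iff.mp (s1 v w t) with ⟨s, t⟩ | ⟨s, t⟩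
      exacts [⟨_, Or.inl rfl, k1 s t⟩, ⟨_, Or.inr (Or.inr (Or.inl rfl)), k3 s t⟩]
    · rcases mul_neg_iff.mp (s2 v w t) with ⟨s, t⟩ | ⟨s, t⟩
      exacts [⟨_, Or.inr (Or.inr (Or.inr rfl)), k4 s t⟩, ⟨_, Or.inr (Or.inl rfl), k2 s t⟩]
  · rw [flex_iff a1 a2 b1 b2 hx] at hu
    have g1 := c1 (fun v => α (u v) + β (u v)) fun v w t => by
      have := (hu v w (l1 t)).1 (s1 v w t)
      simp only [map_sub] at this
      linarith
    have g2 := c2 (fun v => α (u v) - β (u v)) fun v w t => by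
      have := (hu v w (l2 t)).2 (s2 v w t)
      simp only [map_sub] at this
      linarith
    obtain ⟨w⟩ := ‹Nonempty V›
    refine ⟨u w, fun v => ?_⟩
    rw [hx (u v), hx (u w), show α (u v) = α (u w) by linarith [g1 v w, g2 v w],
      show β (u v) = β (u w) by linarith [g1 v w, g2 v w]]
  · induction e using Sym2.ind with
    | h x y =>
      rcases hc x y he with t | t
      · obtain ⟨g, g1, g2⟩ := f1 x y t
        obtain ⟨c, k⟩ := h (fun v => g v • (a + b)) ((flex_iff a1 a2 b1 b2 hx _ _ _).mpr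
          fun v w t => by
            rw [SimpleGraph.deleteEdges_adj] at t
            refine ⟨fun s => ?_, fun _ => by simp [a1, a2, b1, b2]⟩
            rw [g2 v w ((hc v w t.1).resolve_right fun t' => by linarith [s2 v w t']) t.2]
            simp)
        exact g1 (by simpa [a1, a2] using congrArg α ((k x).trans (k y).symm))
      · obtain ⟨g, g1, g2⟩ := f2 x y t
        obtain ⟨c, k⟩ := h (fun v => g v • (a - b)) ((flex_iff a1 a2 b1 b2 hx _ _ _).mpr
          fun v w t => by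
            rw [SimpleGraph.deleteEdges_adj] at t
            refine ⟨fun _ => by simp [a1, a2, b1, b2], fun s => ?_⟩
            rw [g2 v w ((hc v w t.1).resolve_left fun t' => by linarith [s1 v w t']) t.2]
            simp)
        exact g1 (by simpa [a1, a2] using congrArg α ((k x).trans (k y).symm))

lemma alg {p q r s : ℝ} (h1 : |p| + |q| ≤ 1) (h2 : |r| + |s| ≤ 1) (e1 : p * p + q * r = 1)
    (e2 : q * r + s * s = 1) : (q = 0 ∧ r = 0 ∧ (p = 1 ∨ p = -1) ∧ (s = 1 ∨ s = -1)) ∨
      (p = 0 ∧ s = 0 ∧ r = q ∧ (q = 1 ∨ q = -1)) := by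
  have n1 := abs_nonneg p
  have n2 := abs_nonneg q
  have n3 := abs_nonneg r
  have n4 := abs_nonneg s
  have m1 : q * r ≤ |q| * |r| := by rw [← abs_mul]; exact le_abs_self _
  have m2 := abs_mul_abs_self p
  have m3 := abs_mul_abs_self s
  by_cases hq : q * r ≤ 0
  · have k1 : |p| = 1 := by nlinarith
    have k2 : |s| = 1 := by nlinarith
    exact Or.inl ⟨abs_eq_zero.mp (by linarith), abs_eq_zero.mp (by linarith),
      (abs_eq zero_le_one).mp k1, (abs_eq zero_le_one).mp k2⟩
  · push Not at hq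
    have q0 : 0 < |q| := abs_pos.mpr fun e => by simp [e] at hq
    have r0 : 0 < |r| := abs_pos.mpr fun e => by simp [e] at hq
    have k1 : |r| = 1 := by nlinarith
    have k2 : |q| = 1 := by nlinarith
    have k3 : p = 0 := abs_eq_zero.mp (by nlinarith)
    have k4 : s = 0 := abs_eq_zero.mp (by nlinarith)
    refine Or.inr ⟨k3, k4, ?_, (abs_eq zero_le_one).mp k2⟩
    rcases (abs_eq zero_le_one).mp k1 with t | t <;> rcases (abs_eq zero_le_one).mp k2 with t' | t' <;>
      rw [t, t'] at hq ⊢ <;> linarith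

include a1 a2 b1 b2 hx in
lemma swap (τ : E →ₗ[ℝ] E) (hτ : ∀ x, τ (τ x) = x) (hP : τ '' quad a b = quad a b)
    (hs : ¬ PreservesFacets a b τ) : (τ a = a ∧ τ b = -b) ∨ (τ a = -a ∧ τ b = b) := by
  have hq : quad a b ⊆ {x | |α x| + |β x| ≤ 1} := by
    refine convexHull_min ?_ ?_
    · rintro _ (rfl | rfl | rfl | rfl) <;> simp [a1, a2, b1, b2]
    · intro x h y h' l m hl hm e
      simp only [Set.mem_ofPred_eq, map_add, map_smul, smul_eq_mul] at *
      have t1 := abs_add_le (l * α x) (m * α y)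
      have t2 := abs_add_le (l * β x) (m * β y)
      simp only [abs_mul, abs_of_nonneg hl, abs_of_nonneg hm] at t1 t2
      nlinarith
  have h1 := hq (hP.subset ⟨a, subset_convexHull ℝ _ (by simp), rfl⟩)
  have h2 := hq (hP.subset ⟨b, subset_convexHull ℝ _ (by simp), rfl⟩)
  have e : ∀ x, x = α (τ x) • τ a + β (τ x) • τ b := fun x => by
    rw [← map_smul, ← map_smul, ← map_add, ← hx, hτ]
  have e1 := congrArg α (e a)
  have e2 := congrArg β (e b)
  simp only [map_add, map_smul, smul_eq_mul, a1, b2] at e1 e2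
  have im : ∀ c d, τ '' facet (c, d) = segment ℝ (τ c) (τ d) := fun c d =>
    image_segment ℝ τ.toAffineMap c d
  have ng : ∀ c d : E, -facet (c, d) = segment ℝ (-c) (-d) := fun c d => by
    rw [← Set.image_neg_eq_neg]
    exact image_segment ℝ (-LinearMap.id : E →ₗ[ℝ] E).toAffineMap c d
  have ta := hx (τ a)
  have tb := hx (τ b)
  rcases alg h1 h2 e1.symm (by linarith) with ⟨k1, k2, k3 | k3, k4 | k4⟩ | ⟨k1, k2, k3, k4 | k4⟩ <;>
    simp only [k1, k2, k3, k4, one_smul, zero_smul, neg_smul, add_zero, zero_add] at ta tb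
  · refine absurd ?_ hs
    rintro _ (rfl | rfl | rfl | rfl) <;> left <;> simp only [im, map_neg, ta, tb] <;> rfl
  · exact Or.inl ⟨ta, tb⟩
  · exact Or.inr ⟨ta, tb⟩
  · refine absurd ?_ hs
    rintro _ (rfl | rfl | rfl | rfl) <;> right <;> simp only [im, ng, map_neg, ta, tb]
  · refine absurd ?_ hs
    rintro _ (rfl | rfl | rfl | rfl) <;> simp only [im, ng, map_neg, ta, tb, neg_neg]
    exacts [Or.inl (segment_symm _ _ _), Or.inr (segment_symm _ _ _), Or.inl (segment_symm _ _ _),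
      Or.inr (segment_symm _ _ _)]
  · refine absurd ?_ hs
    rintro _ (rfl | rfl | rfl | rfl) <;> simp only [im, ng, map_neg, ta, tb, neg_neg]
    exacts [Or.inr (segment_symm _ _ _), Or.inl (segment_symm _ _ _), Or.inr (segment_symm _ _ _),
      Or.inl (segment_symm _ _ _)]

end

theorem result {V : Type} [Finite V] (G : SimpleGraph V) (a b : E)
    (hab : LinearIndependent ℝ ![a, b]) (θ : G ≃g G) (hθ : ∀ v, θ (θ v) = v) (τ : E →ₗ[ℝ] E)
    (hτ : (∀ x, τ (τ x) = x) ∧ LinearMap.det τ = -1) (hP : τ '' quad a b = quad a b)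
    (hswap : ¬ PreservesFacets a b τ) (hG : Tight G) (hE : ∀ e ∈ G.edgeSet, e.map θ ≠ e) :
    ∃ p : V → E, Function.Injective p ∧ WellPositioned a b G p ∧ Isostatic a b G p ∧
      ∀ v, p (θ v) = τ (p v) := by
  let B := basisOfLinearIndependentOfCardEqFinrank hab (by simp)
  have B0 : B 0 = a := by simp [B]
  have B1 : B 1 = b := by simp [B]
  have a1 : B.coord 0 a = 1 := by simp [← B0]
  have a2 : B.coord 0 b = 0 := by simp [← B1]
  have b1 : B.coord 1 a = 0 := by simp [← B0]
  have b2 : B.coord 1 b = 1 := by simp [← B1]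
  have hx : ∀ x, x = B.coord 0 x • a + B.coord 1 x • b := fun x => by
    conv_lhs => rw [← B.sum_repr x]
    rw [Fin.sum_univ_two, B0, B1]; rfl
  generalize B.coord 0 = α at a1 a2 hx
  generalize B.coord 1 = β at b1 b2 hx
  have ht : G.edgeSet.ncard + 2 = 2 * Nat.card V := by have := hG.1; omega
  have : Nonempty V := (Nat.card_pos_iff.mp (by omega)).1
  obtain ⟨X, Y, T1, T2, sx, sy, inj, l1, l2, f1, f2, c1, c2, hc, s1, s2⟩ := core (G := G) hθ
    (fun u w t => θ.map_adj_iff.mpr t) (fun u w t => hE s(u, w) t) (fun S hS => by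
      have := hG.2 ((⊤ : G.Subgraph).induce S) hS
      have e : ((⊤ : G.Subgraph).induce S).edgeSet = {e | e ∈ G.edgeSet ∧ ∀ v ∈ e, v ∈ S} := by
        ext e
        induction e using Sym2.ind with
        | h u w => simp; tauto
      rw [e, SimpleGraph.Subgraph.induce_verts] at this
      omega) ht
  rcases swap a1 a2 b1 b2 hx τ hτ.1 hP hswap with ⟨ta, tb⟩ | ⟨ta, tb⟩
  · obtain ⟨r1, r2⟩ := iso a1 a2 b1 b2 hx (fun v => X v • a + Y v • b) f1 f2 l1 l2 c1 c2 hc
      (fun u w t => by simpa [a1, a2, b1, b2] using s1 u w t)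
      (fun u w t => by simpa [a1, a2, b1, b2] using s2 u w t)
    refine ⟨_, fun u w e => ?_, r1, r2, fun v => by simp [sx, sy, ta, tb]⟩
    by_contra hne
    exact (inj u w hne).elim (fun t => t (by simpa [a1, a2] using congrArg α e))
      (fun t => t (by simpa [b1, b2] using congrArg β e))
  · obtain ⟨r1, r2⟩ := iso a1 a2 b1 b2 hx (fun v => Y v • a + X v • b) f1 f2 l1 l2 c1 c2 hc
      (fun u w t => by simpa [a1, a2, b1, b2, mul_comm] using s1 u w t)
      (fun u w t => by simpa [a1, a2, b1, b2, mul_comm] using s2 u w t)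
    refine ⟨_, fun u w e => ?_, r1, r2, fun v => by simp [sx, sy, ta, tb]⟩
    by_contra hne
    exact (inj u w hne).elim (fun t => t (by simpa [b1, b2] using congrArg β e))
      (fun t => t (by simpa [a1, a2] using congrArg α e))

end Pool.Agent.Results.MP_236c69_co.SymIso
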